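import Pool.Agent.Helper41.Cluster4.Goals

/-! Packet PG: geometry of the poles. -/

namespace Pool.Agent.Helper26.Cluster4

open Module Pool.Agent.Helper65.Delone Pool.Agent.Helper41.Cluster4
open scoped RealInnerProductSpace

universe u

variable {E : Type u} [NormedAddCommGroup E] [InnerProductSpace ℝ E]

/-- The poles. -/
def Pol (Γ : Subgroup (E ≃ₗᵢ[ℝ] E)) (y : E) : Type u :=
  {u : E // ‖u‖ = 1 ∧ ⟪u, y⟫ = 0 ∧ ∃ A ∈ Γ, A ≠ 1 ∧ A u = u}

theorem smul_mem {Γ : Subgroup (E ≃ₗᵢ[ℝ] E)} {y : E} (hy : ∀ A ∈ Γ, A y = y) (A : Γ)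
    {u : E} (hu : ‖u‖ = 1 ∧ ⟪u, y⟫ = 0 ∧ ∃ A ∈ Γ, A ≠ 1 ∧ A u = u) :
    ‖A.1 u‖ = 1 ∧ ⟪A.1 u, y⟫ = 0 ∧ ∃ B ∈ Γ, B ≠ 1 ∧ B (A.1 u) = A.1 u := by
  obtain ⟨h1, h2, B, hB, hB1, hBu⟩ := hu
  refine ⟨by rw [A.1.norm_map, h1], ?_, A.1 * B * A.1⁻¹,
    Γ.mul_mem (Γ.mul_mem A.2 hB) (Γ.inv_mem A.2), ?_, ?_⟩
  · conv_lhs => rw [← hy A.1 A.2]
    rw [A.1.inner_map_map, h2]
  · intro h
    apply hB1
    have h3 : B = A.1⁻¹ * (A.1 * B * A.1⁻¹) * A.1 := by group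
    rw [h3, h]
    group
  · change A.1 (B (A.1.symm (A.1 u))) = A.1 u
    rw [A.1.symm_apply_apply, hBu]

/-- The action on the poles. -/
@[reducible] def act {Γ : Subgroup (E ≃ₗᵢ[ℝ] E)} {y : E} (hy : ∀ A ∈ Γ, A y = y) :
    MulAction Γ (Pol Γ y) where
  smul A p := ⟨A.1 p.1, smul_mem hy A p.2⟩
  one_smul p := Subtype.ext rfl
  mul_smul A B p := Subtype.ext rfl

/-- The unit vectors orthogonal to `y` that are fixed by `A`. -/
theorem two [FiniteDimensional ℝ E] {A : E ≃ₗᵢ[ℝ] E} {y : E} (hy : ‖y‖ = 1) (hA : A y = y)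
    (h2 : finrank ℝ (fixSpace A) = 2) :
    ∃ e : E, e ≠ -e ∧ {u : E | ‖u‖ = 1 ∧ ⟪u, y⟫ = 0 ∧ A u = u} = {e, -e} := by
  have hy0 : y ≠ 0 := by
    rintro rfl
    rw [norm_zero] at hy
    exact zero_ne_one hy
  have hle : (ℝ ∙ y) ≤ fixSpace A := by
    rw [Submodule.span_singleton_le_iff_mem]
    exact hA
  have h3 := Submodule.finrank_add_inf_finrank_orthogonal hle
  rw [finrank_span_singleton hy0, h2] at h3
  have h4 : finrank ℝ ((ℝ ∙ y)ᗮ ⊓ fixSpace A : Submodule ℝ E) = 1 := by omega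
  obtain ⟨v, hv, hall⟩ := finrank_eq_one_iff'.1 h4
  have hv0 : (v : E) ≠ 0 := fun h => hv (Subtype.ext h)
  have hn : ‖(v : E)‖ ≠ 0 := norm_ne_zero_iff.2 hv0
  have hvp := v.2
  rw [Submodule.mem_inf] at hvp
  have hvy : ⟪(v : E), y⟫ = 0 := by
    rw [real_inner_comm]
    exact (Submodule.mem_orthogonal_singleton_iff_inner_right.1 hvp.1)
  have hvA : A (v : E) = v := hvp.2
  refine ⟨(‖(v : E)‖)⁻¹ • (v : E), ?_, ?_⟩
  · intro h
    have h5 : (‖(v : E)‖)⁻¹ • (v : E) = 0 := by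
      have h7 : (2 : ℝ) • ((‖(v : E)‖)⁻¹ • (v : E)) = 0 := by
        rw [two_smul]
        nth_rewrite 1 [h]
        exact neg_add_cancel _
      rcases smul_eq_zero.1 h7 with h8 | h8
      · exact absurd h8 two_ne_zero
      · exact h8
    rcases smul_eq_zero.1 h5 with h6 | h6
    · exact inv_ne_zero hn h6
    · exact hv0 h6
  · ext u
    simp only [Set.mem_ofPred_eq, Set.mem_insert_iff, Set.mem_singleton_iff]
    constructor
    · rintro ⟨hu1, hu2, hu3⟩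
      have hmem : u ∈ ((ℝ ∙ y)ᗮ ⊓ fixSpace A : Submodule ℝ E) := by
        rw [Submodule.mem_inf]
        refine ⟨?_, hu3⟩
        rw [Submodule.mem_orthogonal_singleton_iff_inner_right, real_inner_comm]
        exact hu2
      obtain ⟨c, hc⟩ := hall ⟨u, hmem⟩
      have hc' : c • (v : E) = u := congrArg Subtype.val hc
      have hcn : |c| * ‖(v : E)‖ = 1 := by
        rw [← hu1, ← hc', norm_smul, Real.norm_eq_abs]
      rcases abs_cases c with ⟨h6, _⟩ | ⟨h6, _⟩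
      · left
        rw [← hc']
        congr 1
        rw [h6] at hcn
        exact eq_inv_of_mul_eq_one_left hcn
      · right
        rw [← hc', ← neg_smul]
        congr 1
        rw [h6] at hcn
        have : -c = (‖(v : E)‖)⁻¹ := eq_inv_of_mul_eq_one_left hcn
        linarith
    · have key : ∀ t : ℝ, |t| = (‖(v : E)‖)⁻¹ → ‖t • (v : E)‖ = 1 ∧ ⟪t • (v : E), y⟫ = 0 ∧
          A (t • (v : E)) = t • (v : E) := by
        intro t ht
        refine ⟨?_, ?_, ?_⟩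
        · rw [norm_smul, Real.norm_eq_abs, ht, inv_mul_cancel₀ hn]
        · rw [real_inner_smul_left, hvy, mul_zero]
        · rw [map_smul, hvA]
      rintro (rfl | rfl)
      · exact key _ (abs_of_nonneg (by positivity))
      · rw [← neg_smul]
        exact key _ (by rw [abs_neg, abs_of_nonneg (by positivity)])

theorem fin_pol [FiniteDimensional ℝ E] (Γ : Subgroup (E ≃ₗᵢ[ℝ] E)) [Finite Γ] (y : E)
    (h : ∀ A ∈ Γ, A ≠ 1 → ∃ e : E, e ≠ -e ∧ {u : E | ‖u‖ = 1 ∧ ⟪u, y⟫ = 0 ∧ A u = u} = {e, -e}) :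
    Finite (Pol Γ y) := by
  have h1 : {u : E | ‖u‖ = 1 ∧ ⟪u, y⟫ = 0 ∧ ∃ A ∈ Γ, A ≠ 1 ∧ A u = u} ⊆
      ⋃ A : Γ, {u : E | A.1 ≠ 1 ∧ ‖u‖ = 1 ∧ ⟪u, y⟫ = 0 ∧ A.1 u = u} := by
    rintro u ⟨h1, h2, A, hA, hA1, hAu⟩
    rw [Set.mem_iUnion]
    exact ⟨⟨A, hA⟩, hA1, h1, h2, hAu⟩
  have h2 : (⋃ A : Γ, {u : E | A.1 ≠ 1 ∧ ‖u‖ = 1 ∧ ⟪u, y⟫ = 0 ∧ A.1 u = u}).Finite := by
    refine Set.finite_iUnion fun A => ?_
    by_cases hA : A.1 = 1
    · convert Set.finite_empty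
      ext u
      simp [hA]
    · obtain ⟨e, _, he⟩ := h A.1 A.2 hA
      refine Set.Finite.subset (s := {e, -e}) (Set.toFinite _) ?_
      rw [← he]
      rintro u ⟨_, hu⟩
      exact hu
  exact (h2.subset h1).to_subtype

theorem poleGeom [FiniteDimensional ℝ E] (hF : FixFacts E) (hc : PoleCount.{u, u}) :
    PoleGeom E := by
  intro h4 Γ y hΓ hy1 hΓy
  have hfy : ∀ A ∈ Γ, A y = y := fun A hA => (hΓy A hA).2
  have hy0 : y ≠ 0 := by
    rintro rfl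
    rw [norm_zero] at hy1
    exact zero_ne_one hy1
  have htwo : ∀ A ∈ Γ, A ≠ 1 →
      ∃ e : E, e ≠ -e ∧ {u : E | ‖u‖ = 1 ∧ ⟪u, y⟫ = 0 ∧ A u = u} = {e, -e} := by
    intro A hA hA1
    exact two hy1 (hfy A hA) ((hF h4).2.1 A (hΓy A hA).1 hA1 y hy0 (hfy A hA))
  haveI := fin_pol Γ y htwo
  letI := act hfy (Γ := Γ)
  have hsm : ∀ (A : Γ) (p : Pol Γ y), (A • p).1 = A.1 p.1 := fun A p => rfl
  have hstab : ∀ p : Pol Γ y, Nat.card (MulAction.stabilizer Γ p) = Nat.card (stb Γ p.1) := by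
    intro p
    refine Nat.card_congr ⟨fun A => ⟨A.1.1, A.1.2, ?_⟩, fun A => ⟨⟨A.1, A.2.1⟩, ?_⟩, ?_, ?_⟩
    · have h1 : A.1 • p = p := A.2
      have h2 := congrArg Subtype.val h1
      rwa [hsm] at h2
    · exact Subtype.ext A.2.2
    · intro A
      rfl
    · intro A
      rfl
  have hfix : ∀ g : Γ, g ≠ 1 → Nat.card (MulAction.fixedBy (Pol Γ y) g) = 2 := by
    intro g hg
    have hg1 : g.1 ≠ 1 := fun h => hg (Subtype.ext h)
    obtain ⟨e, he, hs⟩ := htwo g.1 g.2 hg1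
    have e1 : Nat.card (MulAction.fixedBy (Pol Γ y) g) = Nat.card ({e, -e} : Set E) := by
      rw [← hs]
      refine Nat.card_congr ⟨fun p => ⟨p.1.1, p.1.2.1, p.1.2.2.1, ?_⟩,
        fun u => ⟨⟨u.1, u.2.1, u.2.2.1, g.1, g.2, hg1, u.2.2.2⟩, ?_⟩, ?_, ?_⟩
      · have h1 : g • p.1 = p.1 := p.2
        have h2 := congrArg Subtype.val h1
        rwa [hsm] at h2
      · exact Subtype.ext u.2.2.2
      · intro p
        rfl
      · intro p
        rfl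
    rw [e1, Nat.card_coe_set_eq, Set.ncard_pair he]
  have hnt : ∀ p : Pol Γ y, Nat.card (MulAction.stabilizer Γ p) ≠ 1 := by
    intro p h
    rw [hstab] at h
    obtain ⟨u, hu1, hu2, A, hA, hA1, hAu⟩ := p
    have h1 : (stb Γ u) = ⊥ := Subgroup.eq_bot_of_card_eq (stb Γ u) h
    have h2 : A ∈ stb Γ u := ⟨hA, hAu⟩
    rw [h1, Subgroup.mem_bot] at h2
    exact hA1 h2
  have htriv : ∀ u : E, ‖u‖ = 1 → ⟪u, y⟫ = 0 → (¬ ∃ A ∈ Γ, A ≠ 1 ∧ A u = u) →
      Nat.card (stb Γ u) = 1 := by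
    intro u _ _ h
    have h1 : stb Γ u = ⊥ := by
      rw [Subgroup.eq_bot_iff_forall]
      intro A hA
      by_contra hA1
      exact h ⟨A, hA.1, hA1, hA.2⟩
    rw [h1]
    exact Subgroup.card_bot
  obtain ⟨c1, c2⟩ := hc Γ (Pol Γ y) hfix hnt
  refine ⟨fun h => c1 fun p => ?_, fun h => ?_⟩
  · rw [hstab]
    exact h p.1 p.2.1 p.2.2.1
  · rcases c2 (fun p => by
      rw [hstab]
      exact h p.1 p.2.1 p.2.2.1) with h5 | ⟨h5, h6⟩ | ⟨h5, ⟨p, hp⟩, h7⟩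
    · exact Or.inl h5
    · refine Or.inr (Or.inl ⟨h5, ?_⟩)
      have hinj : Function.Injective (fun p : Pol Γ y => p.1) := fun p q h => Subtype.ext h
      rw [← h6, ← Set.ncard_image_of_injective _ hinj]
      congr 1
      ext u
      simp only [Set.mem_ofPred_eq, Set.mem_image]
      constructor
      · rintro ⟨h8, h9, h10⟩
        have h11 : ∃ A ∈ Γ, A ≠ 1 ∧ A u = u := by
          by_contra hcon
          rw [htriv u h8 h9 hcon] at h10
          omega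
        refine ⟨⟨u, h8, h9, h11⟩, ?_, rfl⟩
        rw [hstab]
        exact h10
      · rintro ⟨p, hp, rfl⟩
        rw [hstab] at hp
        exact ⟨p.2.1, p.2.2.1, hp⟩
    · refine Or.inr (Or.inr ⟨h5, ⟨p.1, p.2.1, p.2.2.1, ?_⟩, ?_⟩)
      · rw [← hstab]
        exact hp
      · intro u h8 h9
        by_cases h10 : ∃ A ∈ Γ, A ≠ 1 ∧ A u = u
        · have := h7 ⟨u, h8, h9, h10⟩
          rw [hstab] at this
          simp only [Set.mem_insert_iff, Set.mem_singleton_iff] at this ⊢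
          tauto
        · rw [htriv u h8 h9 h10]
          simp

end Pool.Agent.Helper26.Cluster4
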